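import Mathlib
import Pool.Agent.H695R2.Steiner.Lower3
import Pool.Agent.H695R2.Steiner.Upper

set_option autoImplicit false

namespace Pool.Agent.Results.MP_f600e0_lc.NotAttained

open Pool.Agent.H695R2.Steiner

open Classical in
/-- The four points `(0,0), (1,0), (3,0), (0,1000)`. -/
noncomputable def P0 : Finset Plane := {pO, pB, pC, pD}

theorem card_P0 : P0.card = 4 := by
  classical
  unfold P0
  rw [Finset.card_insert_of_notMem, Finset.card_insert_of_notMem, Finset.card_insert_of_notMem,
    Finset.card_singleton]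
  · simp only [Finset.mem_singleton]; exact pC_ne_pD
  · simp only [Finset.mem_insert, Finset.mem_singleton, not_or]
    exact ⟨pB_ne_pC, pB_ne_pD⟩
  · simp only [Finset.mem_insert, Finset.mem_singleton, not_or]
    exact ⟨pO_ne_pB, pO_ne_pC, pO_ne_pD⟩

theorem sub_SE (ε : ℝ) : P0 ⊆ SE ε := by
  classical
  intro z hz
  simp only [P0, Finset.mem_insert, Finset.mem_singleton] at hz
  rw [mem_SE]
  rcases hz with rfl | rfl | rfl | rfl <;> simp

theorem steinerE {ε : ℝ} (h0 : 0 < ε) (h1 : ε < 1) : IsSteinerTriangulation P0 (TE ε) :=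
  ⟨SE ε, sub_SE ε, triE h0 h1⟩

theorem lower (T : Finset (Sym2 Plane)) (hT : IsSteinerTriangulation P0 T) : KK < weight T := by
  classical
  obtain ⟨S, hS, hTri⟩ := hT
  apply lower_bound hTri
  · exact hS (by simp [P0])
  · exact hS (by simp [P0])
  · exact hS (by simp [P0])
  · exact hS (by simp [P0])

theorem inf_le : infWeight P0 ≤ KK := by
  unfold infWeight
  have hbdd : BddBelow {w : ℝ | ∃ T : Finset (Sym2 Plane),
      IsSteinerTriangulation P0 T ∧ w = weight T} := by
    refine ⟨KK, ?_⟩
    rintro w ⟨T, hT, rfl⟩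
    exact (lower T hT).le
  apply le_of_forall_pos_le_add
  intro δ hδ
  set ε := min (δ / 2) (1 / 2) with hε
  have h0 : 0 < ε := by
    rw [hε, lt_min_iff]; constructor <;> linarith
  have h1 : ε < 1 := lt_of_le_of_lt (min_le_right _ _) (by norm_num)
  have h2 : ε ≤ δ / 2 := min_le_left _ _
  refine (csInf_le hbdd ⟨TE ε, steinerE h0 h1, rfl⟩).trans ?_
  refine (weightE h0 h1).trans ?_
  have e1 : Real.sqrt (1 + ε ^ 2) ≤ 1 + ε := by
    rw [Real.sqrt_le_left (by linarith)]
    nlinarith
  have e2 : Real.sqrt (9 + ε ^ 2) ≤ 3 + ε := by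
    rw [Real.sqrt_le_left (by linarith)]
    nlinarith
  unfold KK
  linarith

/-- There is a set `P` of four points of the plane whose infimum `W(P)` over the (existing) Steiner
triangulations is attained by none of them: every Steiner triangulation of `P` has weight strictly
larger than `W(P)`. -/
theorem result : ∃ P : Finset Plane, P.card = 4 ∧
    (∃ T : Finset (Sym2 Plane), IsSteinerTriangulation P T) ∧
    ∀ T : Finset (Sym2 Plane), IsSteinerTriangulation P T → infWeight P < weight T :=
  ⟨P0, card_P0, ⟨TE (1 / 2), steinerE (by norm_num) (by norm_num)⟩,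
    fun T hT => inf_le.trans_lt (lower T hT)⟩

end Pool.Agent.Results.MP_f600e0_lc.NotAttained
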